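import Mathlib

namespace Pool.Agent.Results.MP_43f217_an.NotClosed

open Set Filter Topology

set_option maxHeartbeats 400000

variable {X : Type}

/-- Square summable functions for the weight `μ`. -/
def L2 (μ : X → ℝ) (f : X → ℂ) : Prop := Summable fun x => ‖f x‖ ^ 2 * μ x

/-- Squared weighted distance. -/
noncomputable def D2 (μ : X → ℝ) (f g : X → ℂ) : ℝ := ∑' x, ‖f x - g x‖ ^ 2 * μ x

/-- The formal scalar Schroedinger operator. -/
noncomputable def Op (b : X → X → ℝ) (μ W : X → ℝ) (f : X → ℂ) (x : X) : ℂ :=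
  (1 / μ x : ℝ) * ∑' y, (b x y : ℂ) * (f x - f y) + W x * f x

/-- The domain of the maximal restriction. -/
def Dom (b : X → X → ℝ) (μ W : X → ℝ) (f : X → ℂ) : Prop :=
  (∀ x, Summable fun y => b x y * ‖f y‖) ∧ L2 μ f ∧ L2 μ (Op b μ W f)

abbrev Y := Option (ℕ × Bool)

noncomputable def b : Y → Y → ℝ
  | none, none => 0
  | none, some p => (1 / 2) ^ p.1
  | some p, none => (1 / 2) ^ p.1
  | some p, some q => if q = (p.1, !p.2) then 1 else 0

noncomputable def μ : Y → ℝ
  | none => 1
  | some p => (1 / 8) ^ p.1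

noncomputable def W : Y → ℝ
  | none => 0
  | some p => -((1 / 2) ^ p.1 + 2) / (1 / 8) ^ p.1

theorem sm {g : Y → ℝ} (h : Summable fun p => g (some p)) : Summable g :=
  by
  have := ((Option.some_injective _).summable_iff (f := Function.update g none 0) (by
    rintro (_ | p) h <;> simp_all)).1 (by simpa [Function.comp_def] using h)
  simpa using this.update none (g none)

theorem ms {g : Y → ℝ} (h : Summable g) : Summable fun p => g (some p) :=
  h.comp_injective (Option.some_injective _)

theorem geo {r : ℝ} (h0 : 0 ≤ r) (h : r < 1) : Summable fun p : ℕ × Bool => r ^ p.1 :=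
  (summable_prod_of_nonneg fun _ => by positivity).2 ⟨fun _ => .of_finite, by
    simpa using (summable_geometric_of_lt_one h0 h).mul_left 2⟩

theorem fs (p : ℕ × Bool) {M : Type} [AddCommMonoid M] [TopologicalSpace M] (g : Y → M)
    (h : ∀ y, b (some p) y = 0 → g y = 0) : HasSum g (g none + g (some (p.1, !p.2))) := by
  have := hasSum_sum_of_ne_finset_zero (f := g) (s := {none, some (p.1, !p.2)})
    (L := SummationFilter.unconditional _) fun y hy => h y (by
      rcases y with _ | q
      · simp at hy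
      · exact if_neg fun e => hy (by simp [e]))
  rwa [Finset.sum_pair (by simp)] at this

theorem op_some (f : Y → ℂ) (p : ℕ × Bool) : Op b μ W f (some p) =
    -(8 ^ p.1 * ((1 / 2) ^ p.1 * f none + f (some p) + f (some (p.1, !p.2)))) := by
  unfold Op
  rw [(fs p _ fun y hy => by simp [hy]).tsum_eq]
  simp only [b, μ, W, if_true]
  push_cast
  rw [one_div_pow (8:ℂ)]
  field_simp; ring

theorem fin {g : Y → ℝ} (N : ℕ) (h : ∀ p : ℕ × Bool, N ≤ p.1 → g (some p) = 0) : Summable g := by
  refine sm (summable_of_ne_finset_zero (s := Finset.range N ×ˢ Finset.univ) fun p hp => h p ?_)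
  simpa using hp

theorem tail {g : Y → ℝ} (hg : Summable g) :
    Tendsto (fun N => ∑' y, {y | ∃ p : ℕ × Bool, y = some p ∧ N ≤ p.1}.indicator g y) atTop
      (𝓝 0) := by
  have := tendsto_tsum_of_dominated_convergence (𝓕 := atTop) (g := fun _ => (0:ℝ))
    (f := fun N y => {y | ∃ p : ℕ × Bool, y = some p ∧ N ≤ p.1}.indicator g y) hg.norm
    (fun y => ?_) (Eventually.of_forall fun N y => norm_indicator_le_norm_self _ _)
  · simpa using this
  · refine tendsto_const_nhds.congr' ?_
    rcases y with _ | p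
    · exact Eventually.of_forall fun N => by simp
    · filter_upwards [eventually_gt_atTop p.1] with N hN
      rw [indicator_of_notMem]
      rintro ⟨q, h1, h2⟩
      cases h1; omega

noncomputable def cut (h g : Y → ℂ) (N : ℕ) : Y → ℂ
  | none => h none
  | some p => if p.1 < N then h (some p) else g (some p)

theorem cut_d (h g : Y → ℂ) (hd : L2 μ (g - h)) :
    Tendsto (fun N => D2 μ (cut h g N) h) atTop (𝓝 0) := by
  refine (tail hd).congr fun N => tsum_congr fun y => ?_
  rcases y with _ | p
  · simp [cut]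
  · by_cases h : p.1 < N
    · rw [indicator_of_notMem (by rintro ⟨q, h1, h2⟩; cases h1; omega)]; simp [cut, h]
    · rw [indicator_of_mem (by exact ⟨p, rfl, not_lt.1 h⟩)]; simp [cut, h]

theorem cut_dom (h : Y → ℂ) (N : ℕ) :
    Dom b μ W (cut h (fun y => -(b none y * h none / 2)) N) := by
  set f := cut h (fun y => -(b none y * h none / 2)) N with hf
  obtain ⟨C, hC⟩ : ∃ C, ∀ p, ‖f (some p)‖ ≤ C := by
    obtain ⟨C, hC⟩ := (((Finset.range N ×ˢ Finset.univ).finite_toSet).image
      fun p : ℕ × Bool => ‖h (some p)‖).bddAbove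
    refine ⟨max C ‖h none‖, fun p => ?_⟩
    simp only [hf, cut]
    split_ifs with hp
    · exact le_max_of_le_left (hC ⟨p, by simpa using hp, rfl⟩)
    · refine le_max_of_le_right ?_
      have : (1 / 2 : ℝ) ^ p.1 ≤ 1 := pow_le_one₀ (by norm_num) (by norm_num)
      simp only [b, norm_neg, norm_div, norm_mul, Complex.norm_real, norm_pow, norm_one,
        Real.norm_two, Complex.norm_two]
      nlinarith [norm_nonneg (h none)]
  refine ⟨fun x => ?_, sm ?_, fin N fun p hp => ?_⟩
  · rcases x with _ | p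
    · refine sm (Summable.of_nonneg_of_le (fun p => by simp only [b]; positivity) (fun p => ?_)
        ((geo (r := 1 / 2) (by norm_num) (by norm_num)).mul_right C))
      simp only [b]; gcongr; exact hC p
    · exact (fs p _ fun y hy => by simp [hy]).summable
  · refine Summable.of_nonneg_of_le (fun p => by simp only [μ]; positivity) (fun p => ?_)
      ((geo (r := 1 / 8) (by norm_num) (by norm_num)).mul_left (C ^ 2))
    simp only [μ]; gcongr; exact hC p
  · rw [op_some]
    simp only [hf, cut, if_neg hp.not_gt, b]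
    push_cast; ring_nf; simp

theorem result : ∃ (X : Type) (_ : Countable X) (b : X → X → ℝ) (μ W : X → ℝ),
    (∀ x y, 0 ≤ b x y) ∧ (∀ x y, b x y = b y x) ∧ (∀ x, b x x = 0) ∧ (∀ x, Summable (b x)) ∧
    (∀ x, 0 < μ x) ∧
    (∀ h, L2 μ h → ∀ ε > 0, ∃ f, Dom b μ W f ∧ D2 μ f h < ε) ∧
    ∃ (f : ℕ → X → ℂ) (u : X → ℂ), (∀ k, Dom b μ W (f k) ∧ Op b μ W (f k) = 0) ∧ L2 μ u ∧
      Tendsto (fun k => D2 μ (f k) u) atTop (𝓝 0) ∧ ¬ Dom b μ W u := by
  have hμ : ∀ x, 0 < μ x := by rintro (_ | p) <;> simp only [μ] <;> positivity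
  refine ⟨Y, inferInstance, b, μ, W, ?_, ?_, ?_, ?_, hμ, fun h hh ε hε => ?_, ?_⟩
  · rintro (_ | p) (_ | q) <;> simp only [b] <;> positivity
  · rintro (_ | ⟨m, p⟩) (_ | ⟨n, q⟩) <;> simp only [b]
    cases p <;> cases q <;> simp [eq_comm]
  · rintro (_ | ⟨m, p⟩) <;> simp [b]
  · rintro (_ | p)
    · exact sm (geo (by norm_num) (by norm_num))
    · exact (fs p _ fun y hy => hy).summable
  · have h1 : L2 μ ((fun y => -(b none y * h none / 2)) - h) := by
      have h2 := (cut_dom h 0).2.1
      refine sm (Summable.of_nonneg_of_le (fun p => mul_nonneg (sq_nonneg _) (hμ _).le)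
        (fun p => ?_) (((ms h2).add
          (ms hh)).mul_left 2))
      simp only [cut, Nat.not_lt_zero, if_false, Pi.sub_apply]
      set u := -((b none (some p) : ℂ) * h none / 2)
      have a1 : ‖u - h (some p)‖ ^ 2 ≤ (‖u‖ + ‖h (some p)‖) ^ 2 := by
        gcongr; exact norm_sub_le _ _
      have a2 : ‖u - h (some p)‖ ^ 2 ≤ 2 * (‖u‖ ^ 2 + ‖h (some p)‖ ^ 2) := by
        nlinarith [sq_nonneg (‖u‖ - ‖h (some p)‖)]
      nlinarith [hμ (some p)]
    obtain ⟨N, hN⟩ := ((cut_d h _ h1).eventually_lt_const hε).exists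
    exact ⟨_, cut_dom h N, hN⟩
  · let u : Y → ℂ := fun y => match y with
      | none => 0
      | some p => if p.2 then 2 ^ p.1 else -2 ^ p.1
    have hu : ∀ p, ‖u (some p)‖ = 2 ^ p.1 := fun p => by
      simp only [u]; split_ifs <;> simp
    have h1 : L2 μ u := sm ((geo (r := 1 / 2) (by norm_num) (by norm_num)).congr fun p => by
      rw [hu, μ, ← pow_mul, mul_comm p.1, pow_mul, ← mul_pow]; norm_num)
    have h0 : (fun y => -((b none y : ℂ) * u none / 2)) = 0 := by funext y; simp [u]
    refine ⟨cut u 0, u, fun k => ⟨h0 ▸ cut_dom u k, funext ?_⟩, h1,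
      cut_d u 0 (by simpa [L2] using h1), fun h => ?_⟩
    · rintro (_ | ⟨n, p⟩)
      · have h2 := (h0 ▸ cut_dom u k).1 none
        have h3 : Summable fun y => (b none y : ℂ) * (cut u 0 k none - cut u 0 k y) :=
          Summable.of_norm (h2.congr fun y => by
            rw [norm_mul, show cut u 0 k none = 0 from rfl, zero_sub, norm_neg]
            rcases y with _ | p <;> simp [b])
        let e : Y ≃ Y := Equiv.optionCongr (Equiv.prodCongr (Equiv.refl ℕ) Equiv.boolNot)
        have h4 := e.tsum_eq fun y => (b none y : ℂ) * (cut u 0 k none - cut u 0 k y)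
        have h5 : ∀ y, (b none (e y) : ℂ) * (cut u 0 k none - cut u 0 k (e y)) =
            -((b none y : ℂ) * (cut u 0 k none - cut u 0 k y)) := by
          rintro (_ | ⟨n, p⟩)
          · simp [e]
          · cases p <;> by_cases h : n < k <;> simp [e, cut, u, b, h]
        simp only [h5, tsum_neg] at h4
        have h6 := self_eq_neg.1 h4.symm
        simp [Op, h6, W]
      · rw [op_some]
        cases p <;> by_cases h : n < k <;> simp [cut, u, h]
    · have h2 := (ms (h.1 none)).comp_injective
        (i := fun n : ℕ => (n, true)) fun a b h => by simpa using h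
      have h3 := h2.tendsto_atTop_zero
      simp only [Function.comp_def, hu, b, ← mul_pow] at h3
      norm_num at h3

end Pool.Agent.Results.MP_43f217_an.NotClosed
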